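import Pool.Agent.Y192.FA.GDefs
import Pool.Agent.Y192.KC.ZK

/-! The exceptional set as a closed subset (job 6864, task `St_fval`). -/

set_option autoImplicit false

namespace Pool.Agent.Y448.FG

open MvPolynomial Pool.Agent.Y192 Pool.Agent.Y192.OG Pool.Agent.Y192.FA

/-- clearing the denominators of a Laurent polynomial -/
theorem clear {n : ℕ} (G0 : Lau n) : ∃ (P : MvPolynomial (Fin n) ℂ) (m : Fin n → ℕ),
    ∀ (K : Type) [Field K] [Algebra ℂ K] (x : Fin n → Kˣ),
      aeval (fun i => (x i : K)) P = (xm x (fun i => (m i : ℤ)) : K) * ep x G0 := by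
  classical
  have hmon : ∀ (m : Fin n → ℕ) (K : Type) [Field K] [Algebra ℂ K] (x : Fin n → Kˣ),
      aeval (fun i => (x i : K)) (∏ i, (MvPolynomial.X i : MvPolynomial (Fin n) ℂ) ^ m i) =
        (xm x (fun i => (m i : ℤ)) : K) := by
    intro m K _ _ x
    unfold xm
    rw [map_prod, Units.coe_prod]
    refine Finset.prod_congr rfl fun i _ => ?_
    rw [map_pow, aeval_X, zpow_natCast, Units.val_pow_eq_pow_val]
  induction G0 using AddMonoidAlgebra.induction_linear with
  | zero =>
    refine ⟨0, 0, fun K _ _ x => ?_⟩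
    rw [map_zero, map_zero, mul_zero]
  | add g1 g2 h1 h2 =>
    obtain ⟨P1, m1, h1⟩ := h1
    obtain ⟨P2, m2, h2⟩ := h2
    refine ⟨(∏ i, (MvPolynomial.X i : MvPolynomial (Fin n) ℂ) ^ m2 i) * P1 +
      (∏ i, (MvPolynomial.X i : MvPolynomial (Fin n) ℂ) ^ m1 i) * P2, m1 + m2, fun K _ _ x => ?_⟩
    have e : (fun i => (((m1 + m2) i : ℕ) : ℤ)) = (fun i => (m1 i : ℤ)) + fun i => (m2 i : ℤ) := by
      funext i
      simp
    rw [map_add, map_mul, map_mul, hmon, hmon, h1, h2, e, xm_add, map_add, Units.val_mul]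
    ring
  | single a c =>
    refine ⟨C c * ∏ i, (MvPolynomial.X i : MvPolynomial (Fin n) ℂ) ^ (((a i).natAbs : ℤ) + a i).toNat,
      fun i => (a i).natAbs, fun K _ _ x => ?_⟩
    rw [map_mul, hmon, ep_single, algHom_C, Algebra.smul_def]
    have e : (fun i => (((((a i).natAbs : ℤ) + a i).toNat : ℕ) : ℤ)) =
        (fun i => ((a i).natAbs : ℤ)) + a := by
      funext i
      simp only [Pi.add_apply]
      omega
    rw [e, xm_add, Units.val_mul]
    ring

/-- the exceptional set as a closed subset -/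
theorem t_fval : St_fval := by
  intro n r X K _ _ x hx G0 hG0
  obtain ⟨P, m, hP⟩ := clear G0
  obtain ⟨f, k, hf, hf2⟩ := KC.exists_hom P
  refine ⟨f, k, hf, ?_, ?_⟩
  · intro hfI
    have h1 := (hx f k hf).mpr hfI
    rw [KC.ep_laur, hf2, hP] at h1
    rcases mul_eq_zero.mp h1 with h2 | h2
    · exact Units.ne_zero _ h2
    · exact hG0 h2
  · intro M _ _ y a ha hy hne h0
    apply hne
    rw [← KC.aeval_cons hf a (ha 0)]
    have e : (fun i : Fin n => a i.succ / a 0) = fun i => (y i : M) := funext fun i => (hy i).symm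
    rw [e, hf2, hP, h0, mul_zero]

end Pool.Agent.Y448.FG
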